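import Mathlib
import Pool.Agent.H129Z.SubMain

set_option autoImplicit false

namespace Pool.Agent.Results.MP_597c46_an.ConvexNotDomain

open Pool.Agent.H129Z.Sub

theorem result (n : ℕ) (hn : 2 ≤ n) :
    ∃ C : Set (EuclideanSpace ℝ (Fin n)), C.Nonempty ∧ Convex ℝ C ∧
      (∀ f : EuclideanSpace ℝ (Fin n) → EReal, ProperLscConvex f →
        dom (subdiff f) ≠ C ∧ ran (subdiff f) ≠ C) ∧
      (∀ A : EuclideanSpace ℝ (Fin n) → Set (EuclideanSpace ℝ (Fin n)), MaxMonotoneOp A →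
        dom A ≠ C ∧ ran A ≠ C) :=
  exists_convex_not_dom hn

end Pool.Agent.Results.MP_597c46_an.ConvexNotDomain
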